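import Pool.Agent.PQP.StmtsE
import Pool.Agent.Helper54_FLX.All
import Pool.Agent.Helper85_PQP.QDR
import Pool.Agent.Helper21_PQP.BAL

/-!
# Squad PQP, row RTW (helper39): expansion near the boundary of the ball for a smooth function
-/

set_option autoImplicit false

open scoped InnerProductSpace Topology ContDiff Manifold
open MeasureTheory Filter Set

noncomputable section

namespace Pool.Agent.PQP.H39

open Pool.Agent.Helper42_Paneitz Pool.Agent.Helper82_Vir Pool.Agent.FLX Pool.Agent.PQP.H85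

theorem xisT : XisStmt := by
  have ker : KerStmt := FLX.H83.ker FLX.H54.pow_all
  exact FLX.H55.xis (FLX.H55.sym ker (FLX.H32.rea FLX.H54.pow_all ker)) (FLX.H82.rep ker)

/-- `(1 - s²)(2 - (l+s)/(1+ls))/(1 + l s)` -/
def fG (l s : ℝ) : ℝ := (1 - s ^ 2) / (1 + l * s) * (2 - ze l s)

/-- `(1 - s²)/(1 + l s)` -/
def fK (l s : ℝ) : ℝ := (1 - s ^ 2) / (1 + l * s)

theorem cont_fK {l : ℝ} (hl0 : 0 ≤ l) (hl : l < 1) : ContinuousOn (fK l) (Icc (-1 : ℝ) 1) := by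
  unfold fK
  apply ContinuousOn.div (by fun_prop) (by fun_prop)
  intro s hs
  exact (den_pos hl0 hl hs).ne'

theorem fG_eq {l s : ℝ} (hd : 0 < 1 + l * s) : fG l s = 2 * fK l s - fB l s := by
  have hd' : 1 + l * s ≠ 0 := hd.ne'
  unfold fG fK fB ze
  rw [eq_comm]
  have e : (1 - s ^ 2) / (1 + l * s) * (2 - (l + s) / (1 + l * s)) =
      2 * ((1 - s ^ 2) / (1 + l * s)) - (l + s) * (1 - s ^ 2) / ((1 + l * s) * (1 + l * s)) := by
    rw [← div_div]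
    ring
  rw [e, pow_two (1 + l * s)]

theorem fG_lower {l s : ℝ} (hl0 : 0 ≤ l) (hl : l < 1) (hs : s ∈ Icc (-1 : ℝ) 1) :
    (1 - s ^ 2) / 2 ≤ fG l s := by
  have hd := den_pos hl0 hl hs
  have h1 := sq_le hs
  have hze : ze l s ≤ 1 := by
    unfold ze
    rw [div_le_one hd]
    nlinarith [hs.1, hs.2]
  have h2 : (1 - s ^ 2) / 2 ≤ (1 - s ^ 2) / (1 + l * s) := by
    apply div_le_div_of_nonneg_left (by linarith) hd
    nlinarith [hs.1, hs.2]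
  have h3 : 0 ≤ (1 - s ^ 2) / (1 + l * s) := div_nonneg (by linarith) hd.le
  unfold fG
  nlinarith

theorem fG_upper {l s : ℝ} (hl0 : 0 ≤ l) (hl : l < 1) (hs : s ∈ Icc (-1 : ℝ) 1) :
    fG l s ≤ 6 := by
  have hd := den_pos hl0 hl hs
  have h1 := sq_le hs
  have hze : -1 ≤ ze l s := by
    unfold ze
    rw [le_div_iff₀ hd]
    nlinarith [hs.1, hs.2]
  have h2 : (1 - s ^ 2) / (1 + l * s) ≤ 2 := by
    rw [div_le_iff₀ hd]
    nlinarith [sq_nonneg (1 + l * s), sq_nonneg (l + s), sq_nonneg (s + l), sq_nonneg s,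
      mul_nonneg hl0 hl0, hs.1, hs.2]
  have h3 : 0 ≤ (1 - s ^ 2) / (1 + l * s) := div_nonneg (by linarith) hd.le
  unfold fG
  nlinarith

/-- the linear part -/
theorem lin_eq (mow : MowStmt) (w y : S4) {l : ℝ} (hl0 : 0 ≤ l) (hl : l < 1) {a : E5}
    (ha : ⟪(w : E5), a⟫_ℝ = 0) :
    ⟪a, (mob (l • (w : E5)) y : E5)⟫_ℝ = ka l ⟪(w : E5), (y : E5)⟫_ℝ * ⟪a, (y : E5)⟫_ℝ := by
  rw [mob_eq mow w y hl0 hl, inner_add_right, real_inner_smul_right, real_inner_smul_right,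
    real_inner_comm (w : E5) a, ha]
  ring

theorem lin_int (mow : MowStmt) (w : S4) {l : ℝ} (hl0 : 0 ≤ l) (hl : l < 1) {a : E5}
    (ha : ⟪(w : E5), a⟫_ℝ = 0) (v : E5) :
    ∫ y, ⟪a, (mob (l • (w : E5)) y : E5)⟫_ℝ * ⟪v, (y : E5)⟫_ℝ ∂sig =
      √(1 - l ^ 2) * (∫ y : S4, fK l ⟪(w : E5), (y : E5)⟫_ℝ ∂sig) / 4 * ⟪a, v⟫_ℝ := by
  have e1 : ∀ y : S4, ⟪a, (mob (l • (w : E5)) y : E5)⟫_ℝ * ⟪v, (y : E5)⟫_ℝ =
      ka l ⟪(w : E5), (y : E5)⟫_ℝ * (⟪a, (y : E5)⟫_ℝ * ⟪v, (y : E5)⟫_ℝ) := by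
    intro y
    rw [lin_eq mow w y hl0 hl ha]
    ring
  simp only [e1]
  rw [quad w (cont_ka hl0 hl), ha]
  have e2 : ∫ y : S4, ka l ⟪(w : E5), (y : E5)⟫_ℝ * (1 - ⟪(w : E5), (y : E5)⟫_ℝ ^ 2) ∂sig =
      √(1 - l ^ 2) * ∫ y : S4, fK l ⟪(w : E5), (y : E5)⟫_ℝ ∂sig := by
    rw [← integral_const_mul]
    congr 1
    funext y
    unfold ka fK
    ring
  rw [e2]
  ring

/-- the bound of the error -/
theorem err_le (mos : MosStmt) (hmkb : MkbStmt) : ∃ C : ℝ, 0 ≤ C ∧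
    ∀ (w : S4) (l : ℝ), 0 ≤ l → l < 1 → ∀ (R : S4 → ℝ) (D : ℝ) (v : E5), Continuous R → 0 ≤ D →
      (∀ z : S4, |R z| ≤ D * ‖(z : E5) - (w : E5)‖ ^ 3) → ‖v‖ ≤ 1 →
      |∫ y, R (mob (l • (w : E5)) y) * ⟪v, (y : E5)⟫_ℝ ∂sig| ≤
        C * D * (√(1 - l ^ 2)) ^ 3 := by
  obtain ⟨C, hC, h⟩ := hmkb 3 (by norm_num) (by norm_num)
  obtain ⟨-, -, -, -, -, -, -, ker, -⟩ := FLX.H54.rows_all
  refine ⟨C, hC, ?_⟩
  intro w l hl0 hl R D v hR hD hRD hv
  have hb : ‖l • (w : E5)‖ < 1 := by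
    rw [norm_smul, S4_norm, mul_one, Real.norm_eq_abs, abs_of_nonneg hl0]
    exact hl
  have hmc : Continuous (mob (l • (w : E5))) := H21.continuous_mob mos hb
  have h1 := h w w l hl0 hl
  have e1 : ∀ y : S4, (1 + |ell w y|) * ‖(mob (l • (w : E5)) y : E5) - (w : E5)‖ ^ (3 : ℝ) =
      (1 + |ell w y|) * ‖(mob (l • (w : E5)) y : E5) - (w : E5)‖ ^ 3 := by
    intro y
    have h3 : ((3 : ℕ) : ℝ) = (3 : ℝ) := by norm_num
    rw [← h3, Real.rpow_natCast]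
  have e2 : (√(1 - l ^ 2)) ^ (3 : ℝ) = (√(1 - l ^ 2)) ^ 3 := by
    have h3 : ((3 : ℕ) : ℝ) = (3 : ℝ) := by norm_num
    rw [← h3, Real.rpow_natCast]
  simp only [e1] at h1
  rw [e2] at h1
  have hcn : Continuous (fun y : S4 => ‖(mob (l • (w : E5)) y : E5) - (w : E5)‖ ^ 3) :=
    (((continuous_subtype_val.comp hmc).sub continuous_const).norm).pow 3
  have hint : Integrable (fun y : S4 => (1 + |ell w y|) *
      ‖(mob (l • (w : E5)) y : E5) - (w : E5)‖ ^ 3) sig := by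
    have hi1 : Integrable (fun y : S4 => 1 + |ell w y|) sig :=
      (integrable_const (1 : ℝ)).add (ker.1 w).abs
    obtain ⟨B, hB0, hB⟩ := exists_bound hcn
    refine hi1.mul_bdd (c := B) hcn.aestronglyMeasurable (Eventually.of_forall fun y => ?_)
    rw [Real.norm_eq_abs]
    exact hB y
  have h2 : ∀ y : S4, ‖R (mob (l • (w : E5)) y) * ⟪v, (y : E5)⟫_ℝ‖ ≤
      D * ((1 + |ell w y|) * ‖(mob (l • (w : E5)) y : E5) - (w : E5)‖ ^ 3) := by
    intro y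
    rw [norm_mul, Real.norm_eq_abs, Real.norm_eq_abs]
    have h3 : |⟪v, (y : E5)⟫_ℝ| ≤ 1 := by
      have h4 := abs_real_inner_le_norm v (y : E5)
      rw [S4_norm, mul_one] at h4
      linarith
    have h5 := hRD (mob (l • (w : E5)) y)
    have h6 : 0 ≤ ‖(mob (l • (w : E5)) y : E5) - (w : E5)‖ ^ 3 := by positivity
    have h7 : |R (mob (l • (w : E5)) y)| * |⟪v, (y : E5)⟫_ℝ| ≤
        |R (mob (l • (w : E5)) y)| * 1 := mul_le_mul_of_nonneg_left h3 (abs_nonneg _)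
    have h8 : D * ‖(mob (l • (w : E5)) y : E5) - (w : E5)‖ ^ 3 ≤
        D * ((1 + |ell w y|) * ‖(mob (l • (w : E5)) y : E5) - (w : E5)‖ ^ 3) := by
      apply mul_le_mul_of_nonneg_left _ hD
      nlinarith [abs_nonneg (ell w y)]
    linarith
  have h3 := norm_integral_le_of_norm_le (hint.const_mul D) (Eventually.of_forall h2)
  rw [Real.norm_eq_abs, integral_const_mul] at h3
  have h4 := mul_le_mul_of_nonneg_left h1 hD
  calc _ ≤ _ := h3
    _ ≤ _ := h4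
    _ = _ := by ring

/-- the gradient -/
def gr (ψ : S4 → ℝ) (w : S4) : E5 :=
  (InnerProductSpace.toDual ℝ E5).symm (fderiv ℝ (radialExt ψ) (w : E5))

theorem gr_inner (ψ : S4 → ℝ) (w : S4) (v : E5) : ⟪gr ψ w, v⟫_ℝ = dd ψ w v := by
  unfold gr dd
  rw [InnerProductSpace.toDual_symm_apply]

/-- the Hessian as an operator -/
def Hs (ψ : S4 → ℝ) (w : S4) : E5 →L[ℝ] E5 :=
  ∑ i : Fin 5, ((fderiv ℝ (fderiv ℝ (radialExt ψ)) (w : E5)).flip (ee i)).smulRight (ee i)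

theorem Hs_inner (ψ : S4 → ℝ) (w : S4) (u v : E5) : ⟪Hs ψ w u, v⟫_ℝ = hess ψ w u v := by
  have h1 : Hs ψ w u = ∑ i : Fin 5, hess ψ w u (ee i) • ee i := by
    unfold Hs
    rw [sum_apply]
    rfl
  have h2 : hess ψ w u v = ∑ i : Fin 5, v i * hess ψ w u (ee i) := by
    unfold hess
    conv_lhs => rw [← sum_ee v]
    rw [map_sum]
    exact Finset.sum_congr rfl fun i _ => by rw [map_smul, smul_eq_mul]
  rw [h1, h2, sum_inner]
  refine Finset.sum_congr rfl fun i _ => ?_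
  rw [real_inner_smul_left, real_inner_comm, inner_ee]
  ring

theorem rtw (htaw : TawStmt) (hhsw : HswStmt) (hmow : MowStmt) (hmkb : MkbStmt) : RtwStmt := by
  obtain ⟨-, -, -, -, -, mos, -⟩ := FLX.H54.rows_all
  have xis : XisStmt := xisT
  obtain ⟨C₁, hC₁, hpow⟩ := FLX.H54.pow_all 1 (by norm_num)
  set c₁ := ∫ y : S4, ⟪(w₀ : E5), (y : E5)⟫_ℝ ^ 2 * (1 - ⟪(w₀ : E5), (y : E5)⟫_ℝ ^ 2) ∂sig with hc₁
  have hc₁p : 0 < c₁ := c1_pos
  have hms := msig_pos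
  obtain ⟨CE, hCE, herr⟩ := err_le mos hmkb
  refine ⟨min (c₁ / 8) (msig / 10), C₁ / 4 + 3 / 2 * msig, lt_min (by linarith) (by linarith), ?_⟩
  intro ψ hψ
  obtain ⟨CT, hCT, htay⟩ := htaw ψ hψ
  have hψc : Continuous ψ := continuous_of_sm hψ
  refine ⟨CE * CT, mul_nonneg hCE hCT, ?_⟩
  intro w l hlh hl1
  have hl0 : 0 ≤ l := by linarith
  set a : E5 := gr ψ w with ha
  set T : E5 →L[ℝ] E5 := Hs ψ w with hT
  have haw : ⟪(w : E5), a⟫_ℝ = 0 := by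
    rw [real_inner_comm, ha, gr_inner, dd_self hψ]
  have hTs : ∀ u v : E5, ⟪T u, v⟫_ℝ = ⟪u, T v⟫_ℝ := by
    intro u v
    rw [real_inner_comm (T v) u, hT, Hs_inner, Hs_inner, hess_symm hψ]
  have hTw : ∀ v : E5, ⟪T (w : E5), v⟫_ℝ = -⟪a, v⟫_ℝ := by
    intro v
    rw [hT, Hs_inner, (hhsw ψ w hψ).1 v, ha, gr_inner]
  have hTww : ⟪T (w : E5), (w : E5)⟫_ℝ = 0 := by
    rw [hTw, real_inner_comm, haw, neg_zero]
  have htr : tr5 T = sphLaplacian ψ w := by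
    rw [← (hhsw ψ w hψ).2]
    unfold tr5
    exact Finset.sum_congr rfl fun i _ => by rw [hT, Hs_inner]
  -- the remainder
  set R : S4 → ℝ := fun z => ψ z - ψ w - 2 * ⟪a, (z : E5)⟫_ℝ -
    1 / 2 * ⟪T (z : E5), (z : E5)⟫_ℝ with hR
  have hTz : Continuous (fun z : S4 => ⟪T (z : E5), (z : E5)⟫_ℝ) :=
    (T.continuous.comp continuous_subtype_val).inner continuous_subtype_val
  have hRc : Continuous R :=
    ((hψc.sub continuous_const).sub (continuous_const.mul (cont_ip a))).sub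
      (continuous_const.mul hTz)
  have hRb : ∀ z : S4, |R z| ≤ CT * ‖(z : E5) - (w : E5)‖ ^ 3 := by
    intro z
    have h1 := htay w z
    have h2 : dd ψ w ((z : E5) - (w : E5)) = ⟪a, (z : E5)⟫_ℝ := by
      rw [← gr_inner, ← ha, inner_sub_right, real_inner_comm (w : E5) a, haw, sub_zero]
    have h3 : hess ψ w ((z : E5) - (w : E5)) ((z : E5) - (w : E5)) =
        ⟪T (z : E5), (z : E5)⟫_ℝ + 2 * ⟪a, (z : E5)⟫_ℝ := by
      rw [← Hs_inner, ← hT, map_sub, inner_sub_left, inner_sub_right, inner_sub_right, hTww,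
        hTw, hTs (z : E5) (w : E5), real_inner_comm (T (w : E5)) (z : E5), hTw]
      ring
    rw [h2, h3] at h1
    have h4 : R z = ψ z - ψ w - ⟪a, (z : E5)⟫_ℝ -
        1 / 2 * (⟪T (z : E5), (z : E5)⟫_ℝ + 2 * ⟪a, (z : E5)⟫_ℝ) := by
      simp only [hR]
      ring
    rw [h4]
    exact h1
  have hb : ‖l • (w : E5)‖ < 1 := by
    rw [norm_smul, S4_norm, mul_one, Real.norm_eq_abs, abs_of_nonneg hl0]
    exact hl1
  have hmc : Continuous (mob (l • (w : E5))) := H21.continuous_mob mos hb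
  -- the splitting
  have hsplit : ∀ v : E5, ∫ y, ψ (mob (l • (w : E5)) y) * ⟪v, (y : E5)⟫_ℝ ∂sig =
      2 * (∫ y, ⟪a, (mob (l • (w : E5)) y : E5)⟫_ℝ * ⟪v, (y : E5)⟫_ℝ ∂sig) +
      1 / 2 * (∫ y, ⟪T (mob (l • (w : E5)) y : E5), (mob (l • (w : E5)) y : E5)⟫_ℝ *
        ⟪v, (y : E5)⟫_ℝ ∂sig) +
      ∫ y, R (mob (l • (w : E5)) y) * ⟪v, (y : E5)⟫_ℝ ∂sig := by
    intro v
    have hcv := cont_ip v
    have i1 : Integrable (fun y : S4 => ⟪a, (mob (l • (w : E5)) y : E5)⟫_ℝ *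
        ⟪v, (y : E5)⟫_ℝ) sig := integrable_cont (((cont_ip a).comp hmc).mul hcv)
    have i2 : Integrable (fun y : S4 => ⟪T (mob (l • (w : E5)) y : E5),
        (mob (l • (w : E5)) y : E5)⟫_ℝ * ⟪v, (y : E5)⟫_ℝ) sig :=
      integrable_cont ((hTz.comp hmc).mul hcv)
    have i3 : Integrable (fun y : S4 => R (mob (l • (w : E5)) y) * ⟪v, (y : E5)⟫_ℝ) sig :=
      integrable_cont ((hRc.comp hmc).mul hcv)
    have i4 : Integrable (fun y : S4 => ψ w * ⟪v, (y : E5)⟫_ℝ) sig :=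
      integrable_cont (continuous_const.mul hcv)
    have e1 : ∀ y : S4, ψ (mob (l • (w : E5)) y) * ⟪v, (y : E5)⟫_ℝ =
        ((ψ w * ⟪v, (y : E5)⟫_ℝ +
        2 * (⟪a, (mob (l • (w : E5)) y : E5)⟫_ℝ * ⟪v, (y : E5)⟫_ℝ)) +
        1 / 2 * (⟪T (mob (l • (w : E5)) y : E5), (mob (l • (w : E5)) y : E5)⟫_ℝ *
          ⟪v, (y : E5)⟫_ℝ)) + R (mob (l • (w : E5)) y) * ⟪v, (y : E5)⟫_ℝ := by
      intro y
      simp only [hR]
      ring
    simp only [e1]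
    have i14 : Integrable (fun y : S4 => ψ w * ⟪v, (y : E5)⟫_ℝ +
        2 * (⟪a, (mob (l • (w : E5)) y : E5)⟫_ℝ * ⟪v, (y : E5)⟫_ℝ)) sig :=
      i4.add (i1.const_mul 2)
    have i124 : Integrable (fun y : S4 => (ψ w * ⟪v, (y : E5)⟫_ℝ +
        2 * (⟪a, (mob (l • (w : E5)) y : E5)⟫_ℝ * ⟪v, (y : E5)⟫_ℝ)) +
        1 / 2 * (⟪T (mob (l • (w : E5)) y : E5), (mob (l • (w : E5)) y : E5)⟫_ℝ *
          ⟪v, (y : E5)⟫_ℝ)) sig := i14.add (i2.const_mul (1 / 2))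
    rw [integral_add i124 i3, integral_add i14 (i2.const_mul (1 / 2)),
      integral_add i4 (i1.const_mul 2), integral_const_mul, integral_const_mul,
      integral_const_mul, xis.2.2 v, mul_zero, zero_add]
  -- the constants
  have hneg : ∀ y : S4, -⟪(w : E5), (y : E5)⟫_ℝ = ⟪((-w : S4) : E5), (y : E5)⟫_ℝ := by
    intro y
    rw [show ((-w : S4) : E5) = -(w : E5) from rfl, inner_neg_left]
  have hHi : Integrable (fun y : S4 => H85.HH ⟪(w : E5), (y : E5)⟫_ℝ) sig := by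
    unfold H85.HH
    simp only [hneg]
    exact (hpow w).1.add (hpow (-w)).1
  have hHb : ∫ y : S4, H85.HH ⟪(w : E5), (y : E5)⟫_ℝ ∂sig ≤ 2 * C₁ := by
    unfold H85.HH
    simp only [hneg]
    rw [integral_add (hpow w).1 (hpow (-w)).1]
    linarith [(hpow w).2, (hpow (-w)).2]
  have hgAi := integrable_cont (cont_zon w (cont_gA hl0 hl1))
  have hA := intA w hl0 hl1
  have hA1 : c₁ ≤ ∫ y : S4, gA l ⟪(w : E5), (y : E5)⟫_ℝ ∂sig := by
    rw [hc₁, ← int_rot w w₀ cont1]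
    exact integral_mono (integrable_cont (cont_zon w cont1)) hgAi
      (fun y => gA_lower hlh hl1 (ip_mem w y))
  have hA2 : ∫ y : S4, gA l ⟪(w : E5), (y : E5)⟫_ℝ ∂sig ≤ 2 * C₁ :=
    (integral_mono hgAi hHi (fun y => gA_upper hl0 hl1 (ip_mem w y))).trans hHb
  have cfG : ContinuousOn (fG l) (Icc (-1 : ℝ) 1) := by
    unfold fG
    exact (cont_fK hl0 hl1).mul (continuousOn_const.sub (cont_ze hl0 hl1))
  have hGi := integrable_cont (cont_zon w cfG)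
  have hKi := integrable_cont (cont_zon w (cont_fK hl0 hl1))
  have hBi := integrable_cont (cont_zon w (cont_fB hl0 hl1))
  have hG : ∫ y : S4, fG l ⟪(w : E5), (y : E5)⟫_ℝ ∂sig =
      2 * (∫ y : S4, fK l ⟪(w : E5), (y : E5)⟫_ℝ ∂sig) -
        ∫ y : S4, fB l ⟪(w : E5), (y : E5)⟫_ℝ ∂sig := by
    rw [← integral_const_mul, ← integral_sub (hKi.const_mul 2) hBi]
    congr 1
    funext y
    exact fG_eq (den_pos hl0 hl1 (ip_mem w y))
  have hG1 : 2 / 5 * msig ≤ ∫ y : S4, fG l ⟪(w : E5), (y : E5)⟫_ℝ ∂sig := by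
    have c0 : Continuous (fun y : S4 => (1 - ⟪(w : E5), (y : E5)⟫_ℝ ^ 2) / 2) :=
      (continuous_const.sub ((cont_ip (w : E5)).pow 2)).div_const 2
    have h1 := integral_mono (integrable_cont c0) hGi
      (fun y => fG_lower hl0 hl1 (ip_mem w y))
    refine le_trans (le_of_eq ?_) h1
    have h2 : ∫ y : S4, ⟪(w : E5), (y : E5)⟫_ℝ ^ 2 ∂sig = msig / 5 := by
      have h3 := xis.2.1 (w : E5) (w : E5)
      rw [real_inner_self_eq_norm_sq, S4_norm] at h3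
      have h4 : ∀ y : S4, ⟪(w : E5), (y : E5)⟫_ℝ ^ 2 =
          ⟪(w : E5), (y : E5)⟫_ℝ * ⟪(w : E5), (y : E5)⟫_ℝ := fun y => by ring
      simp only [h4]
      rw [h3]
      ring
    have i5 : Integrable (fun y : S4 => ⟪(w : E5), (y : E5)⟫_ℝ ^ 2) sig :=
      integrable_cont ((cont_ip (w : E5)).pow 2)
    rw [integral_div, integral_sub (integrable_const (1 : ℝ)) i5, h2, integral_const,
      smul_eq_mul, mul_one]
    show 2 / 5 * msig = (msig - msig / 5) / 2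
    ring
  have hG2 : ∫ y : S4, fG l ⟪(w : E5), (y : E5)⟫_ℝ ∂sig ≤ 6 * msig := by
    have h1 := integral_mono hGi (integrable_const (6 : ℝ))
      (fun y => fG_upper hl0 hl1 (ip_mem w y))
    refine h1.trans (le_of_eq ?_)
    rw [integral_const, smul_eq_mul]
    show msig * 6 = 6 * msig
    ring
  refine ⟨(∫ y : S4, gA l ⟪(w : E5), (y : E5)⟫_ℝ ∂sig) / 8,
    (∫ y : S4, fG l ⟪(w : E5), (y : E5)⟫_ℝ ∂sig) / 4,
    (min_le_left _ _).trans (by linarith), by linarith,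
    (min_le_right _ _).trans (by linarith), by linarith, ?_, ?_⟩
  · have h1 := hsplit (w : E5)
    have h2 := lin_int hmow w hl0 hl1 haw (w : E5)
    rw [real_inner_comm, haw, mul_zero] at h2
    have h3 := first hmow T hTs w hl0 hl1
    rw [hTww, htr] at h3
    have h4 := herr w l hl0 hl1 R CT (w : E5) hRc hCT hRb (S4_norm w).le
    rw [h2, h3] at h1
    have h5 : (∫ y, ψ (mob (l • (w : E5)) y) * ⟪(w : E5), (y : E5)⟫_ℝ ∂sig) +
        (∫ y : S4, gA l ⟪(w : E5), (y : E5)⟫_ℝ ∂sig) / 8 * (1 - l ^ 2) * sphLaplacian ψ w =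
        ∫ y, R (mob (l • (w : E5)) y) * ⟪(w : E5), (y : E5)⟫_ℝ ∂sig := by
      rw [h1, ← hA]
      ring
    rw [h5]
    exact h4
  · intro e he hen
    have h1 := hsplit e
    have h2 := lin_int hmow w hl0 hl1 haw e
    have h3 := second hmow T hTs w hl0 hl1 he
    rw [hTw] at h3
    have h4 := herr w l hl0 hl1 R CT e hRc hCT hRb hen
    rw [h2, h3] at h1
    have h5 : (∫ y, ψ (mob (l • (w : E5)) y) * ⟪e, (y : E5)⟫_ℝ ∂sig) -
        (∫ y : S4, fG l ⟪(w : E5), (y : E5)⟫_ℝ ∂sig) / 4 * √(1 - l ^ 2) * dd ψ w e =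
        ∫ y, R (mob (l • (w : E5)) y) * ⟪e, (y : E5)⟫_ℝ ∂sig := by
      rw [h1, hG, ← gr_inner, ← ha]
      ring
    rw [h5]
    exact h4

end Pool.Agent.PQP.H39
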