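import Pool.Agent.PQP.StmtsE
import Pool.Agent.Helper54_FLX.All

/-!
# Squad PQP, row SPA (helper39): small powers, existence
-/

set_option autoImplicit false

open scoped InnerProductSpace Topology ContDiff Manifold
open MeasureTheory Filter Set

noncomputable section

namespace Pool.Agent.PQP.H39

open Pool.Agent.Helper42_Paneitz Pool.Agent.Helper82_Vir Pool.Agent.FLX

theorem int_le {f : S4 → ℝ} {B : ℝ} (h : ∀ y, |f y| ≤ B) :
    ‖∫ y : S4, f y • (y : E5) ∂sig‖ ≤ B * msig := by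
  refine norm_integral_le_of_norm_le_const (Eventually.of_forall fun y => ?_)
  rw [norm_smul, S4_norm, mul_one, Real.norm_eq_abs]
  exact h y

/-- from a solution of the integral equation for `6 e^{tψ}` -/
theorem curv_of_ie {ψ w : S4 → ℝ} (hψ : Sm ψ) (t : ℝ)
    (hw : IE (fun x => 6 * Real.exp (t * ψ x)) w) :
    IsPaneitzCurvature (fun x => Real.exp (t * ψ x)) := by
  obtain ⟨-, -, -, -, -, -, -, -, reg, slv, -⟩ := FLX.H54.rows_all
  have hs : Sm (fun x => Real.exp (t * ψ x)) := sm_comp (hψ.smul t) Real.contDiff_exp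
  have h1 : FLX.H54.Sol (fun x => 6 * Real.exp (t * ψ x)) w :=
    FLX.H54.finE reg slv (hs.smul 6) hw
  obtain ⟨hu, hP⟩ := FLX.H54.scaleE (by norm_num : (0 : ℝ) < 6) h1
  exact ⟨contMDiff_of_sm hs, _, contMDiff_of_sm hu, hP⟩

theorem spa (hred : RedStmt) (hsbl : SblStmt) : SpaStmt := by
  intro ψ b₀ L hψ hb₀ hbal hL hinj
  obtain ⟨τ₀, C, hτ₀, hC, hr⟩ := hred
  obtain ⟨⟨CS, hCS, hS1⟩, -, -, -⟩ := hsbl
  have hψc : Continuous ψ := continuous_of_sm hψ
  obtain ⟨P0, hP0, hP1⟩ := exists_bound hψc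
  set P : ℝ := P0 + 1 with hPdef
  have hPpos : 0 < P := by linarith
  have hP : ∀ x, |ψ x| ≤ P := fun x => (hP1 x).trans (by linarith)
  have hm := msig_pos
  -- the inverse of `L`
  have hinj' : Function.Injective (L : E5 →ₗ[ℝ] E5) := hinj
  set e : E5 ≃ₗ[ℝ] E5 := LinearEquiv.ofInjectiveEndo (L : E5 →ₗ[ℝ] E5) hinj' with he
  have heL : ∀ v, e v = L v := fun v => rfl
  set Li : E5 →L[ℝ] E5 := (e.toContinuousLinearEquiv.symm : E5 →L[ℝ] E5) with hLidef
  have hLi : ∀ v, Li (L v) = v := by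
    intro v
    rw [← heL v]
    exact e.symm_apply_apply v
  have hLi2 : ∀ v, L (Li v) = v := by
    intro v
    rw [← heL]
    exact e.apply_symm_apply v
  set N : ℝ := ‖Li‖ + 1 with hN
  have hNpos : 0 < N := by
    have := norm_nonneg Li
    linarith
  have hLiN : ∀ v, ‖Li v‖ ≤ N * ‖v‖ := fun v =>
    (Li.le_opNorm v).trans (mul_le_mul_of_nonneg_right (by linarith) (norm_nonneg _))
  -- the radius
  have hlit := hL.isLittleO.def (show (0 : ℝ) < 1 / (4 * N) by positivity)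
  obtain ⟨r0, hr0, hr0b⟩ := Metric.eventually_nhds_iff_ball.1 hlit
  set r : ℝ := min (r0 / 2) ((1 - ‖b₀‖) / 2) with hrdef
  have hrpos : 0 < r := lt_min (by linarith) (by linarith)
  set S : Set E5 := Metric.closedBall b₀ r with hSdef
  have hSr : ∀ b ∈ S, ‖b - b₀‖ ≤ r := fun b hb => by
    rw [← dist_eq_norm]
    exact Metric.mem_closedBall.1 hb
  have hS : ∀ b ∈ S, ‖b‖ < 1 := by
    intro b hb
    have h1 := hSr b hb
    have h2 : r ≤ (1 - ‖b₀‖) / 2 := min_le_right _ _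
    have h3 : ‖b‖ ≤ ‖b - b₀‖ + ‖b₀‖ := by
      have h4 := norm_add_le (b - b₀) b₀
      rwa [sub_add_cancel] at h4
    linarith
  have hlin : ∀ b ∈ S, ‖bal ψ b - L (b - b₀)‖ ≤ 1 / (4 * N) * r := by
    intro b hb
    have h1 : b ∈ Metric.ball b₀ r0 := by
      rw [Metric.mem_ball, dist_eq_norm]
      have h2 : r ≤ r0 / 2 := min_le_left _ _
      have h3 := hSr b hb
      linarith
    have h2 := hr0b b h1
    rw [hbal, sub_zero] at h2
    refine h2.trans ?_
    exact mul_le_mul_of_nonneg_left (hSr b hb) (by positivity)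
  set A : ℝ := C * (CS * (12 * P)) ^ 2 + 6 * P ^ 2 * msig with hA
  have hApos : 0 < A := by positivity
  set t₁ : ℝ := min (1 / P) (min (τ₀ / (CS * (12 * P) + 1)) (r / (N * A))) with ht₁
  have ht₁p : 0 < t₁ := lt_min (by positivity) (lt_min (by positivity) (by positivity))
  refine ⟨t₁, ht₁p, fun t ht0 ht => ?_⟩
  have htp : 0 < |t| := abs_pos.2 ht0
  have hb1 : |t| * P ≤ 1 := by
    have h1 : |t| ≤ 1 / P := (ht.trans_le (min_le_left _ _)).le
    rwa [le_div_iff₀ hPpos] at h1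
  have hb2 : CS * (12 * P * |t|) ≤ τ₀ := by
    have h1 : |t| ≤ τ₀ / (CS * (12 * P) + 1) :=
      (ht.trans_le ((min_le_right _ _).trans (min_le_left _ _))).le
    rw [le_div_iff₀ (by positivity)] at h1
    nlinarith
  have hb3 : N * A * |t| ≤ r := by
    have h1 : |t| ≤ r / (N * A) :=
      (ht.trans_le ((min_le_right _ _).trans (min_le_right _ _))).le
    rw [le_div_iff₀ (by positivity)] at h1
    linarith
  have htψ : ∀ x, |t * ψ x| ≤ |t| * P := fun x => by
    rw [abs_mul]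
    exact mul_le_mul_of_nonneg_left (hP x) (abs_nonneg t)
  set q : S4 → ℝ := fun x => 6 * (Real.exp (t * ψ x) - 1) with hq
  have hqs : Sm q :=
    (sm_sub (sm_comp (hψ.smul t) Real.contDiff_exp) (sm_const 1)).smul 6
  have hqc : Continuous q := continuous_of_sm hqs
  have hqb : ∀ x, |q x| ≤ 12 * P * |t| := by
    intro x
    have h1 := Real.abs_exp_sub_one_le ((htψ x).trans hb1)
    have h2 := htψ x
    show |6 * (Real.exp (t * ψ x) - 1)| ≤ 12 * P * |t|
    rw [abs_mul, abs_of_pos (by norm_num : (0 : ℝ) < 6)]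
    linarith
  have hqd : ∀ x, |q x - 6 * t * ψ x| ≤ 6 * P ^ 2 * t ^ 2 := by
    intro x
    have h1 := Real.abs_exp_sub_one_sub_id_le ((htψ x).trans hb1)
    have h2 : (t * ψ x) ^ 2 ≤ (|t| * P) ^ 2 := sq_le_sq' (by
      have := (abs_le.1 (htψ x)).1
      linarith) (abs_le.1 (htψ x)).2
    have h3 : q x - 6 * t * ψ x = 6 * (Real.exp (t * ψ x) - 1 - t * ψ x) := by
      show 6 * (Real.exp (t * ψ x) - 1) - 6 * t * ψ x = _
      ring
    rw [h3, abs_mul, abs_of_pos (by norm_num : (0 : ℝ) < 6)]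
    have h4 : (|t| * P) ^ 2 = P ^ 2 * t ^ 2 := by rw [mul_pow, sq_abs]; ring
    rw [h4] at h2
    linarith
  have hmobs : ∀ b ∈ S, ∀ g : S4 → ℝ, Sm g → Continuous fun x => g (mob b x) :=
    fun b hb g hg => continuous_of_sm (FLX.H54.mos_all.2 b (hS b hb) g hg)
  obtain ⟨β, hβc, hβ1, hβ2⟩ := hr S q (CS * (12 * P * |t|)) hS hqc (by positivity) hb2
    (fun b hb => hS1 (fun x => q (mob b x)) (12 * P * |t|) (hmobs b hb q hqs)
      fun x => hqb (mob b x))
  have hest : ∀ b ∈ S, ‖β b - (6 * t) • bal ψ b‖ ≤ A * t ^ 2 := by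
    intro b hb
    have h1 := hβ1 b hb
    have h2 : (∫ y : S4, q (mob b y) • (y : E5) ∂sig) - (6 * t) • bal ψ b =
        ∫ y : S4, (q (mob b y) - 6 * t * ψ (mob b y)) • (y : E5) ∂sig := by
      unfold bal
      rw [← integral_smul, ← integral_sub]
      · refine integral_congr_ae (Eventually.of_forall fun y => ?_)
        show q (mob b y) • (y : E5) - (6 * t) • (ψ (mob b y) • (y : E5)) =
          (q (mob b y) - 6 * t * ψ (mob b y)) • (y : E5)
        rw [sub_smul, smul_smul (6 * t) (ψ (mob b y)) (y : E5)]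
      · exact FLX.H40.int_smul (hmobs b hb q hqs)
      · exact (FLX.H40.int_smul (hmobs b hb ψ hψ)).smul (6 * t)
    have h3 : ‖(∫ y : S4, q (mob b y) • (y : E5) ∂sig) - (6 * t) • bal ψ b‖ ≤
        6 * P ^ 2 * t ^ 2 * msig := by
      rw [h2]
      exact int_le fun y => hqd (mob b y)
    have h4 : C * (CS * (12 * P * |t|)) ^ 2 = C * (CS * (12 * P)) ^ 2 * t ^ 2 := by
      have : (CS * (12 * P * |t|)) ^ 2 = (CS * (12 * P)) ^ 2 * |t| ^ 2 := by ring
      rw [this, sq_abs]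
      ring
    have h5 : β b - (6 * t) • bal ψ b = (β b - ∫ y : S4, q (mob b y) • (y : E5) ∂sig) +
        ((∫ y : S4, q (mob b y) • (y : E5) ∂sig) - (6 * t) • bal ψ b) := by abel
    rw [h5]
    refine (norm_add_le _ _).trans ?_
    rw [hA]
    have h6 : (C * (CS * (12 * P)) ^ 2 + 6 * P ^ 2 * msig) * t ^ 2 =
        C * (CS * (12 * P)) ^ 2 * t ^ 2 + 6 * P ^ 2 * t ^ 2 * msig := by ring
    rw [h6, ← h4]
    exact add_le_add h1 h3
  have h6t : (6 * t) ≠ 0 := mul_ne_zero (by norm_num) ht0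
  obtain ⟨b, hb, hfb⟩ := Pool.Agent.Common_Brouwer.schauder (K := S)
    (isCompact_closedBall b₀ r) (convex_closedBall b₀ r)
    ⟨b₀, by rw [hSdef, Metric.mem_closedBall, dist_self]; exact hrpos.le⟩
    (f := fun b => b - Li ((6 * t)⁻¹ • β b))
    (continuousOn_id.sub (Li.continuous.comp_continuousOn (hβc.const_smul (6 * t)⁻¹)))
    (by
      intro b hb
      show b - Li ((6 * t)⁻¹ • β b) ∈ S
      rw [hSdef, Metric.mem_closedBall, dist_eq_norm]
      have h1 : b - Li ((6 * t)⁻¹ • β b) - b₀ =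
          -(Li ((6 * t)⁻¹ • (β b - (6 * t) • bal ψ b)) + Li (bal ψ b - L (b - b₀))) := by
        have h2 : (6 * t)⁻¹ • (β b - (6 * t) • bal ψ b) = (6 * t)⁻¹ • β b - bal ψ b := by
          rw [smul_sub, smul_smul, inv_mul_cancel₀ h6t, one_smul]
        rw [h2, map_sub, map_sub, hLi (b - b₀)]
        abel
      rw [h1, norm_neg]
      have h3 : ‖Li ((6 * t)⁻¹ • (β b - (6 * t) • bal ψ b))‖ ≤ N * A * |t| / 6 := by
        refine (hLiN _).trans ?_
        rw [norm_smul, norm_inv, Real.norm_eq_abs, abs_mul, abs_of_pos (by norm_num : (0 : ℝ) < 6)]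
        have h4 := hest b hb
        calc N * ((6 * |t|)⁻¹ * ‖β b - (6 * t) • bal ψ b‖)
            ≤ N * ((6 * |t|)⁻¹ * (A * t ^ 2)) := by gcongr
          _ = N * A * |t| / 6 := by
              rw [← sq_abs t]
              field_simp
      have h5 : ‖Li (bal ψ b - L (b - b₀))‖ ≤ r / 4 := by
        refine (hLiN _).trans ?_
        calc N * ‖bal ψ b - L (b - b₀)‖ ≤ N * (1 / (4 * N) * r) :=
              mul_le_mul_of_nonneg_left (hlin b hb) hNpos.le
          _ = r / 4 := by field_simp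
      refine (norm_add_le _ _).trans ?_
      linarith)
  have hβ0 : β b = 0 := by
    have h1 : Li ((6 * t)⁻¹ • β b) = 0 := sub_eq_self.1 hfb
    have h2 : (6 * t)⁻¹ • β b = 0 := by
      rw [← hLi2 ((6 * t)⁻¹ • β b), h1, map_zero]
    rcases smul_eq_zero.1 h2 with h3 | h3
    · exact absurd h3 (inv_ne_zero h6t)
    · exact h3
  obtain ⟨w, hw, -⟩ := hβ2 b hb hβ0
  refine curv_of_ie hψ t (w := w) ?_
  have h1 : (fun x => 6 + q x) = fun x => 6 * Real.exp (t * ψ x) := by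
    funext x
    show 6 + 6 * (Real.exp (t * ψ x) - 1) = 6 * Real.exp (t * ψ x)
    ring
  rw [← h1]
  exact hw

end Pool.Agent.PQP.H39
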